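import Pool.Agent.H65.Avoid

set_option autoImplicit false

namespace Pool.Agent.Results.MP_bec853_al.Strict

/-- The number of potentially positive elements of length `n` in `F_r` is `O(b^n)` for some
`b < 2r - 1`. -/
theorem result (r : ℕ) (hr : 2 ≤ r) : ∃ b C : ℝ, b < 2 * r - 1 ∧ ∀ n : ℕ,
    ({u : FreeGroup (Fin r) | u.norm = n ∧ ∃ φ : MulAut (FreeGroup (Fin r)),
      ∀ l ∈ (φ u).toWord, l.2 = true}.ncard : ℝ) ≤ C * b ^ n :=
  Pool.Agent.H65.Avoid.potpos' r hr

end Pool.Agent.Results.MP_bec853_al.Strict
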